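import Pool.Agent.H81.WK.Main
import Pool.Agent.H30.DV.Assemble

/-! # [H9 WK Pts]  general family: spanning and coloops by induction on `j`. -/

set_option linter.unusedSectionVars false

open Module Submodule H15 H30.DV H81.WK

namespace H9.WK

private theorem bnd_mono {j D D' : ℕ} (h : D ≤ D') : bnd j D ≤ bnd (j + 1) D' := by
  unfold bnd
  refine Nat.mul_le_mul (Nat.mul_le_mul_left _ (Nat.pow_le_pow_left (by omega) 2)) (by omega)

/-- general family: spanning and coloops by induction on `j`. -/
theorem good_not_bdd : ∀ j k q : ℕ,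
    ((k + j + 1).choose (j + 1) + (k + j + 1).choose j) * 2 ^ q < 3 ^ q →
    3 * j * bnd j (q + j) + 2 * (q + j + 4) ^ 3 + 2 * (q + j) + 20 ≤ k →
    ∀ (ι : Type) [Fintype ι] (E : Type) [AddCommGroup E] [Module ℝ E] [FiniteDimensional ℝ E]
      (v : ι → E), Good k v → finrank ℝ E ≤ k + j + 1 → 3 * k + j ≤ Fintype.card ι → ¬ Bdd v k := by
  intro j
  induction j with
  | zero =>
    intro k q _ hbig ι _ E _ _ _ v hv hE hc _
    have h1 := hv.fc ⊤ (by rw [finrank_top]; omega)
    have h2 : {i | v i ∈ (⊤ : Submodule ℝ E)} = Set.univ := by ext i; simp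
    rw [h2, Set.ncard_univ, Nat.card_eq_fintype_card, finrank_top] at h1
    omega
  | succ j ih =>
    intro k q hq hbig
    have hq' : ((k + j + 1).choose (j + 1) + (k + j + 1).choose j) * 2 ^ q < 3 ^ q := by
      refine lt_of_le_of_lt (Nat.mul_le_mul_right _ ?_) hq
      have h1 : (k + (j + 1) + 1).choose (j + 1) = (k + j + 1).choose j + (k + j + 1).choose (j + 1) := by
        have : k + (j + 1) + 1 = (k + j + 1) + 1 := by omega
        rw [this, Nat.choose_succ_succ]
      omega
    have hbig' : 3 * j * bnd j (q + j) + 2 * (q + j + 4) ^ 3 + 2 * (q + j) + 20 ≤ k := by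
      refine le_trans ?_ hbig
      have h1 : 3 * j * bnd j (q + j) ≤ 3 * (j + 1) * bnd (j + 1) (q + (j + 1)) :=
        Nat.mul_le_mul (by omega) (bnd_mono (by omega))
      have h2 : (q + j + 4) ^ 3 ≤ (q + (j + 1) + 4) ^ 3 := Nat.pow_le_pow_left (by omega) 3
      omega
    have IH := ih k q hq' hbig'
    have key : ∀ (ι : Type) [Fintype ι] (E : Type) [AddCommGroup E] [Module ℝ E]
        [FiniteDimensional ℝ E] (v : ι → E), Good k v → finrank ℝ E ≤ k + (j + 1) + 1 →
        Fintype.card ι = 3 * k + (j + 1) → ¬ Bdd v k := by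
      intro ι _ E _ _ _ v hv hE hc hb
      by_cases hE' : finrank ℝ E ≤ k + j + 1
      · exact IH ι E v hv hE' (by omega) hb
      by_cases hcl : ∀ i, sp v ({i}ᶜ) = ⊤
      · exact simple_not_bdd (q := q) ⟨by omega, by omega, hcl, fun H hH => hv.fc H hH⟩ (by omega)
          hv.ne_zero hv.np hq hbig hb
      · push Not at hcl
        obtain ⟨i, hi⟩ := hcl
        classical
        have hmem : ∀ l ∈ ({i}ᶜ : Set ι), v l ∈ sp v ({i}ᶜ) := fun l hl => mem_sp hl
        have h1 := Submodule.finrank_lt (lt_top_iff_ne_top.2 hi).ne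
        have h2 : Fintype.card ({i}ᶜ : Set ι) = 3 * k + j := by
          have h5 := Set.ncard_add_ncard_compl ({i} : Set ι)
          rw [Nat.card_eq_fintype_card, Set.ncard_singleton, hc] at h5
          rw [← Nat.card_eq_fintype_card]
          have : Nat.card ({i}ᶜ : Set ι) = ({i}ᶜ : Set ι).ncard := rfl
          omega
        exact IH _ _ _ (hv.sub hmem) (by omega) (by omega) (bdd_sub hb hmem)
    intro ι _ E _ _ _ v hv hE hc hb
    classical
    obtain ⟨J, -, hJ⟩ := Set.exists_subset_card_eq (s := (Set.univ : Set ι))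
      (n := 3 * k + (j + 1)) (by rw [Set.ncard_univ, Nat.card_eq_fintype_card]; exact hc)
    have hmem : ∀ l ∈ J, v l ∈ sp v J := fun l hl => mem_sp hl
    have h1 := Submodule.finrank_le (sp v J)
    have h2 : Fintype.card J = 3 * k + (j + 1) := by
      rw [← Nat.card_eq_fintype_card]
      exact hJ
    exact key _ _ _ (hv.sub hmem) (by omega) h2 (bdd_sub hb hmem)

end H9.WK
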