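import Pool.Agent.H15.FamBasic

/-!
# [H9 WK Union]  rank form of the matroid union theorem for two contractions of one vector family
-/

set_option linter.unusedSectionVars false

open Module Submodule

namespace H9.WK

open H15

variable {ι : Type*} [Fintype ι] {E : Type*} [AddCommGroup E] [Module ℝ E] [FiniteDimensional ℝ E]

/-- submodularity of the rank, with an additional subspace `P` on one side. -/
private theorem submod (v : ι → E) (A P : Submodule ℝ E) (X Y : Set ι) :
    finrank ℝ (A ⊔ P ⊔ sp v (X ∪ Y) : Submodule ℝ E) + finrank ℝ (A ⊔ sp v (X ∩ Y) : Submodule ℝ E) ≤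
      finrank ℝ (A ⊔ P ⊔ sp v X : Submodule ℝ E) + finrank ℝ (A ⊔ sp v Y : Submodule ℝ E) := by
  have h1 := Submodule.finrank_sup_add_finrank_inf_eq (A ⊔ P ⊔ sp v X) (A ⊔ sp v Y)
  have h2 : (A ⊔ P ⊔ sp v X) ⊔ (A ⊔ sp v Y) = A ⊔ P ⊔ sp v (X ∪ Y) := by
    rw [sp_union]
    apply le_antisymm
    · refine sup_le (sup_le le_sup_left ?_) (sup_le ?_ ?_)
      · exact le_sup_of_le_right le_sup_left
      · exact le_sup_of_le_left le_sup_left
      · exact le_sup_of_le_right le_sup_right
    · refine sup_le (le_sup_of_le_left le_sup_left) (sup_le ?_ ?_)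
      · exact le_sup_of_le_left le_sup_right
      · exact le_sup_of_le_right le_sup_right
  have h3 : A ⊔ sp v (X ∩ Y) ≤ (A ⊔ P ⊔ sp v X) ⊓ (A ⊔ sp v Y) :=
    le_inf (sup_le (le_sup_of_le_left le_sup_left)
      (le_sup_of_le_right (sp_mono Set.inter_subset_left)))
      (sup_le_sup_left (sp_mono Set.inter_subset_right) _)
  have h4 := finrank_mono (R := ℝ) h3
  rw [h2] at h1
  omega

/-- matroid union, rank form: a partition of `I` whose rank sum is at least the value of the
union formula at some `Z`. -/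
theorem union_rank [DecidableEq ι] (v : ι → E) : ∀ (n : ℕ) (I : Finset ι), I.card = n →
    ∀ A B : Submodule ℝ E, ∃ X Y Z : Finset ι, Disjoint X Y ∧ X ∪ Y = I ∧ Z ⊆ I ∧
      finrank ℝ (A ⊔ sp v Z : Submodule ℝ E) + finrank ℝ (B ⊔ sp v Z : Submodule ℝ E) +
        (I \ Z).card ≤
      finrank ℝ (A ⊔ sp v X : Submodule ℝ E) + finrank ℝ (B ⊔ sp v Y : Submodule ℝ E) := by
  intro n
  induction n with
  | zero =>
    intro I hI A B
    rw [Finset.card_eq_zero] at hI
    subst hI
    exact ⟨∅, ∅, ∅, by simp, by simp, by simp, by simp⟩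
  | succ n ih =>
    intro I hI A B
    have hne : I.Nonempty := by rw [← Finset.card_pos]; omega
    obtain ⟨e, he⟩ := hne
    have hc : (I.erase e).card = n := by rw [Finset.card_erase_of_mem he]; omega
    obtain ⟨X1, Y1, Z1, d1, u1, s1, g1⟩ := ih (I.erase e) hc (A ⊔ span ℝ {v e}) B
    obtain ⟨X2, Y2, Z2, d2, u2, s2, g2⟩ := ih (I.erase e) hc A (B ⊔ span ℝ {v e})
    have hnot : ∀ {Q : Finset ι}, Q ⊆ I.erase e → e ∉ Q := fun hQ h => Finset.notMem_erase e I (hQ h)
    have hins : ∀ (F : Submodule ℝ E) (Q : Finset ι),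
        F ⊔ sp v ((insert e Q : Finset ι) : Set ι) = F ⊔ span ℝ {v e} ⊔ sp v (Q : Set ι) := by
      intro F Q
      rw [Finset.coe_insert, sp_insert, sup_assoc]
    by_contra hcon
    push Not at hcon
    have hX1 : X1 ⊆ I.erase e := u1 ▸ Finset.subset_union_left
    have hY1 : Y1 ⊆ I.erase e := u1 ▸ Finset.subset_union_right
    have hX2 : X2 ⊆ I.erase e := u2 ▸ Finset.subset_union_left
    have hY2 : Y2 ⊆ I.erase e := u2 ▸ Finset.subset_union_right
    have hu1 : insert e X1 ∪ Y1 = I := by rw [Finset.insert_union, u1, Finset.insert_erase he]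
    have hu2 : X2 ∪ insert e Y2 = I := by rw [Finset.union_insert, u2, Finset.insert_erase he]
    have hd1 : Disjoint (insert e X1) Y1 := Finset.disjoint_insert_left.2 ⟨hnot hY1, d1⟩
    have hd2 : Disjoint X2 (insert e Y2) := Finset.disjoint_insert_right.2 ⟨hnot hX2, d2⟩
    have hZu : insert e (Z1 ∪ Z2) ⊆ I :=
      Finset.insert_subset he ((Finset.union_subset s1 s2).trans (Finset.erase_subset _ _))
    have hZi : Z1 ∩ Z2 ⊆ I := (Finset.inter_subset_left.trans s1).trans (Finset.erase_subset _ _)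
    have k1 := hcon _ _ _ hd1 hu1 hZu
    have k2 := hcon _ _ _ hd2 hu2 hZi
    rw [hins, hins, hins, Finset.coe_union] at k1
    rw [hins, Finset.coe_inter] at k2
    have m1 := submod v A (span ℝ {v e}) (Z1 : Set ι) (Z2 : Set ι)
    have m2 := submod v B (span ℝ {v e}) (Z2 : Set ι) (Z1 : Set ι)
    rw [Set.union_comm (Z2 : Set ι), Set.inter_comm (Z2 : Set ι)] at m2
    -- cardinalities
    have c1 : (I \ insert e (Z1 ∪ Z2)).card + (Z1 ∪ Z2).card = n := by
      have : I \ insert e (Z1 ∪ Z2) = (I.erase e) \ (Z1 ∪ Z2) := by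
        ext a; simp only [Finset.mem_sdiff, Finset.mem_insert, Finset.mem_erase]; tauto
      rw [this, ← hc]
      exact Finset.card_sdiff_add_card_eq_card (Finset.union_subset s1 s2)
    have c2 : (I \ (Z1 ∩ Z2)).card + (Z1 ∩ Z2).card = n + 1 := by
      rw [← hI]; exact Finset.card_sdiff_add_card_eq_card hZi
    have c3 : (I.erase e \ Z1).card + Z1.card = n := by
      rw [← hc]; exact Finset.card_sdiff_add_card_eq_card s1
    have c4 : (I.erase e \ Z2).card + Z2.card = n := by
      rw [← hc]; exact Finset.card_sdiff_add_card_eq_card s2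
    have c5 := Finset.card_union_add_card_inter Z1 Z2
    omega

end H9.WK
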